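import Mathlib

namespace Pool.Agent.Results.MP_105763_al.Zero

open Polynomial Module

/-- the primitive idempotent of X for the i-th eigenvalue -/
noncomputable def idem {K R : Type} [Field K] [Ring R] [Algebra K R] {d : ℕ} (X : R)
    (θ : Fin (d + 1) → K) (i : Fin (d + 1)) : R :=
  aeval X (Lagrange.basis Finset.univ θ i)

/-- irreducible tridiagonal shape of Y with respect to the idempotents E -/
def Tri {R : Type} [Ring R] {d : ℕ} (E : Fin (d + 1) → R) (Y : R) : Prop :=
  ∀ i j : Fin (d + 1), ((i.val + 1 < j.val ∨ j.val + 1 < i.val) → E i * Y * E j = 0) ∧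
    ((i.val + 1 = j.val ∨ j.val + 1 = i.val) → E i * Y * E j ≠ 0)

variable {K V : Type} [Field K] [AddCommGroup V] [Module K V] {d : ℕ}

lemma bas [FiniteDimensional K V] (hV : finrank K V = d + 1) (A : End K V) (θ : Fin (d + 1) → K)
    (hi : Function.Injective θ) (hs : ∀ i, θ i ∈ spectrum K A) :
    ∃ u : Basis (Fin (d + 1)) K V, (∀ i, A (u i) = θ i • u i) ∧
      ∀ i v, idem A θ i v = u.repr v i • u i := by
  choose x hx using fun i => (End.HasEigenvalue.of_mem_spectrum (hs i)).exists_hasEigenvector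
  let u := basisOfLinearIndependentOfCardEqFinrank
    (End.eigenvectors_linearIndependent' A θ hi x hx) (by simp [hV])
  have hu : ∀ i, A (u i) = θ i • u i := fun i => by simpa [u] using (hx i).apply_eq_smul
  refine ⟨u, hu, fun i v => ?_⟩
  have : idem A θ i = (u.coord i).smulRight (u i) := u.ext fun j => by
    rw [idem, End.aeval_apply_of_mem_apply_eq_smul (hu j)]
    by_cases h : i = j
    · subst h; simp [Lagrange.eval_basis_self hi.injOn]
    · simp [Lagrange.eval_basis_of_ne h, Finsupp.single_apply, Ne.symm h]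
  simp [this]

lemma tri {E : Fin (d + 1) → End K V} {Y : End K V} (w : Basis (Fin (d + 1)) K V)
    (hE : ∀ i v, E i v = w.repr v i • w i) (i j : Fin (d + 1)) :
    E i * Y * E j = 0 ↔ w.repr (Y (w j)) i = 0 := by
  constructor
  · intro h
    simpa [hE, w.ne_zero] using LinearMap.congr_fun h (w j)
  · intro h
    ext v
    simp [hE, h]

lemma mem (w : Basis (Fin (d + 1)) K V) (W : Submodule K V) (v : V)
    (h : ∀ i, w.repr v i ≠ 0 → w i ∈ W) : v ∈ W := by
  rw [← w.sum_repr v]
  refine sum_mem fun i _ => ?_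
  by_cases e : w.repr v i = 0
  · simp [e]
  · exact W.smul_mem _ (h i e)

lemma cyc (w : Basis (Fin (d + 1)) K V) (Y : End K V)
    (h0 : ∀ i j : Fin (d + 1), j.val + 1 < i.val → w.repr (Y (w j)) i = 0)
    (h1 : ∀ i j : Fin (d + 1), j.val + 1 = i.val → w.repr (Y (w j)) i ≠ 0)
    (W : Submodule K V) (a : w 0 ∈ W) (b : ∀ v ∈ W, Y v ∈ W) (v : V) : v ∈ W := by
  have : ∀ n, ∀ i : Fin (d + 1), i.val ≤ n → w i ∈ W := by
    intro n
    induction n with
    | zero => intro i hi; rwa [show i = 0 from Fin.ext (by simpa using hi)]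
    | succ n ih =>
      intro i hi
      rcases hi.lt_or_eq with hi | hi
      · exact ih i (by omega)
      let j : Fin (d + 1) := ⟨n, by omega⟩
      have h2 : Y (w j) - w.repr (Y (w j)) i • w i ∈ W := mem w W _ fun k hk => by
        refine ih k ?_
        by_contra hn
        by_cases e : i = k
        · simp [e] at hk
        · have : k.val ≠ i.val := fun h => e (Fin.ext h.symm)
          simp [h0 k j (by simp [j]; omega), e] at hk
      have h3 := sub_mem (b _ (ih j le_rfl)) h2
      rw [sub_sub_cancel] at h3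
      exact (W.smul_mem_iff (h1 i j hi.symm)).mp h3
  exact mem w W v fun i _ => this _ i le_rfl

lemma nz (u : Basis (Fin (d + 1)) K V) (A : End K V) (θ : Fin (d + 1) → K)
    (hu : ∀ i, A (u i) = θ i • u i) (x : V)
    (h : ∀ W : Submodule K V, x ∈ W → (∀ v ∈ W, A v ∈ W) → ∀ v, v ∈ W) (i) : u.repr x i ≠ 0 := by
  intro e
  have : (u.coord i) ∘ₗ A = θ i • u.coord i := u.ext fun j => by
    by_cases h : j = i <;> simp [hu, h]
  have := h (LinearMap.ker (u.coord i)) (by simpa using e) (fun v hv => by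
    have := LinearMap.congr_fun this v
    simp only [LinearMap.mem_ker, LinearMap.comp_apply, LinearMap.smul_apply] at *
    rw [this, hv, smul_zero]) (u i)
  simp at this

lemma low (w : Basis (Fin (d + 1)) K V) (Y : End K V)
    (h0 : ∀ i j : Fin (d + 1), j.val + 1 < i.val → w.repr (Y (w j)) i = 0)
    (h1 : ∀ i j : Fin (d + 1), j.val + 1 = i.val → w.repr (Y (w j)) i ≠ 0) :
    ∀ n, ∀ i : Fin (d + 1), i.val ≤ n →
      w i ∈ (degreeLE K n).map (LinearMap.applyₗ (w 0) ∘ₗ (aeval Y).toLinearMap) := by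
  intro n
  induction n with
  | zero =>
    intro i hi
    rw [show i = 0 from Fin.ext (by simpa using hi)]
    exact ⟨1, by simp [mem_degreeLE], by simp⟩
  | succ n ih =>
    have mono : ∀ i : Fin (d + 1), i.val ≤ n → w i ∈ (degreeLE K (n + 1 : ℕ)).map
        (LinearMap.applyₗ (w 0) ∘ₗ (aeval Y).toLinearMap) := fun i hi =>
      Submodule.map_mono (degreeLE_mono (by exact_mod_cast n.le_succ)) (ih i hi)
    intro i hi
    rcases hi.lt_or_eq with hi | hi
    · exact mono i (by omega)
    let j : Fin (d + 1) := ⟨n, by omega⟩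
    have h2 := mem w _ (Y (w j) - w.repr (Y (w j)) i • w i) fun k hk => mono k (by
      by_contra hn
      by_cases e : i = k
      · simp [e] at hk
      · have : k.val ≠ i.val := fun h => e (Fin.ext h.symm)
        simp [h0 k j (by simp [j]; omega), e] at hk)
    obtain ⟨p, hp, e⟩ := ih j le_rfl
    have h4 : Y (w j) ∈ (degreeLE K (n + 1 : ℕ)).map
        (LinearMap.applyₗ (w 0) ∘ₗ (aeval Y).toLinearMap) := ⟨X * p, by
      rw [SetLike.mem_coe, mem_degreeLE] at hp ⊢
      refine (degree_mul_le_of_le degree_X_le hp).trans ?_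
      push_cast
      rw [add_comm], by rw [← e]; simp⟩
    have h3 := sub_mem h4 h2
    rw [sub_sub_cancel] at h3
    exact (Submodule.smul_mem_iff _ (h1 i j hi.symm)).mp h3

theorem result (K V : Type) [Field K] [AddCommGroup V] [Module K V] [FiniteDimensional K V]
    (d : ℕ) (hV : finrank K V = d + 1) (A S : End K V) (θ φ : Fin (d + 1) → K)
    (hθ : Function.Injective θ) (hA : ∀ i, θ i ∈ spectrum K A)
    (hφ : Function.Injective φ) (hS : ∀ i, φ i ∈ spectrum K S)
    (t1 : Tri (idem A θ) S) (t2 : Tri (idem S φ) A) (r : Fin (d + 1))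
    (L : Finset (Fin (d + 1))) (hL : L.card + r.val ≤ d) :
    (⨆ i ≤ r, LinearMap.range (idem S φ i)) ⊓ (⨆ j ∈ L, LinearMap.range (idem A θ j)) = ⊥ := by
  obtain ⟨u, hu, hE⟩ := bas hV A θ hθ hA
  obtain ⟨w, hw, hF⟩ := bas hV S φ hφ hS
  have a0 : ∀ i j : Fin (d + 1), j.val + 1 < i.val → w.repr (A (w j)) i = 0 :=
    fun i j h => (tri w hF i j).1 ((t2 i j).1 (Or.inr h))
  have a1 : ∀ i j : Fin (d + 1), j.val + 1 = i.val → w.repr (A (w j)) i ≠ 0 :=
    fun i j h => (tri w hF i j).not.1 ((t2 i j).2 (Or.inr h))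
  have n1 := nz u A θ hu _ (cyc w A a0 a1)
  rw [eq_bot_iff]
  rintro v ⟨h1, h2⟩
  have b1 : (⨆ i ≤ r, LinearMap.range (idem S φ i)) ≤
      (degreeLE K r.val).map (LinearMap.applyₗ (w 0) ∘ₗ (aeval A).toLinearMap) := by
    refine iSup₂_le fun i hi => ?_
    rintro _ ⟨x, rfl⟩
    rw [hF]
    exact Submodule.smul_mem _ _ (low w A a0 a1 _ i hi)
  obtain ⟨p, hp, rfl⟩ := b1 h1
  have b2 : ∀ i ∉ L, (⨆ j ∈ L, LinearMap.range (idem A θ j)) ≤ LinearMap.ker (u.coord i) := by
    refine fun i hi => iSup₂_le fun j hj => ?_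
    rintro _ ⟨x, rfl⟩
    have : j ≠ i := by rintro rfl; exact hi hj
    simp [hE, this]
  have : p = 0 := by
    refine eq_zero_of_degree_lt_of_eval_index_eq_zero Lᶜ hθ.injOn ?_ fun i hi => ?_
    · refine (mem_degreeLE.mp hp).trans_lt ?_
      rw [Finset.card_compl, Fintype.card_fin]
      exact_mod_cast (by omega)
    · have e : (u.coord i) ∘ₗ aeval A p = p.eval (θ i) • u.coord i := u.ext fun j => by
        rw [LinearMap.comp_apply, End.aeval_apply_of_mem_apply_eq_smul (hu j)]
        by_cases h : j = i <;> simp [h]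
      have e2 := LinearMap.congr_fun e (w 0)
      have e3 : u.coord i (aeval A p (w 0)) = 0 := b2 i (Finset.mem_compl.mp hi) h2
      rw [LinearMap.comp_apply, e3] at e2
      simpa [n1 i] using e2.symm
  simp [this]

end Pool.Agent.Results.MP_105763_al.Zero
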